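import Pool.Agent.W8.KU.Stm

/-! Project KU: the unit sphere has finite area. -/

open scoped Topology ContDiff
open MeasureTheory Metric

namespace Pool.Agent.W135.KU

open Pool.Agent.W8.KU

noncomputable section

/-- spherical coordinates -/
def FF (p : Fin 2 → ℝ) : E3 :=
  !₂[Real.cos (p 0) * Real.cos (p 1), Real.cos (p 0) * Real.sin (p 1), Real.sin (p 0)]

lemma FF_contDiff : ContDiff ℝ 1 FF := by
  rw [contDiff_euclidean]
  have h0 : ContDiff ℝ 1 (fun p : Fin 2 → ℝ => p 0) := contDiff_apply ℝ ℝ 0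
  have h1 : ContDiff ℝ 1 (fun p : Fin 2 → ℝ => p 1) := contDiff_apply ℝ ℝ 1
  intro i
  fin_cases i
  · have : ContDiff ℝ 1 (fun p : Fin 2 → ℝ => Real.cos (p 0) * Real.cos (p 1)) :=
      h0.cos.mul h1.cos
    simpa [FF] using this
  · have : ContDiff ℝ 1 (fun p : Fin 2 → ℝ => Real.cos (p 0) * Real.sin (p 1)) :=
      h0.cos.mul h1.sin
    simpa [FF] using this
  · have : ContDiff ℝ 1 (fun p : Fin 2 → ℝ => Real.sin (p 0)) := h0.sin
    simpa [FF] using this

lemma sphere_sub : sphere (0 : E3) 1 ⊆ FF '' (Set.Icc (fun _ => -4) (fun _ => 4)) := by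
  intro x hx
  have hx1 : ‖x‖ = 1 := by simpa using hx
  have hsq : x 0 ^ 2 + x 1 ^ 2 + x 2 ^ 2 = 1 := by
    have h := EuclideanSpace.norm_sq_eq x
    rw [hx1, Fin.sum_univ_three] at h
    simp only [Real.norm_eq_abs, sq_abs] at h
    linarith
  have h2a : -1 ≤ x 2 := by nlinarith [sq_nonneg (x 0), sq_nonneg (x 1), sq_nonneg (x 2 - 1)]
  have h2b : x 2 ≤ 1 := by nlinarith [sq_nonneg (x 0), sq_nonneg (x 1), sq_nonneg (x 2 + 1)]
  set z : ℂ := ⟨x 0, x 1⟩ with hz
  have hzn : ‖z‖ = Real.cos (Real.arcsin (x 2)) := by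
    rw [Real.cos_arcsin, Complex.norm_def, Complex.normSq_mk]
    congr 1
    nlinarith
  have hpi : Real.pi < 4 := by linarith [Real.pi_lt_d2]
  have hc : ‖z‖ * Real.cos z.arg = x 0 := Complex.norm_mul_cos_arg z
  have hs : ‖z‖ * Real.sin z.arg = x 1 := Complex.norm_mul_sin_arg z
  refine ⟨![Real.arcsin (x 2), z.arg], ⟨?_, ?_⟩, ?_⟩
  · intro i
    fin_cases i
    · have := Real.neg_pi_div_two_le_arcsin (x 2)
      show -4 ≤ Real.arcsin (x 2)
      linarith
    · have := Complex.neg_pi_lt_arg z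
      show -4 ≤ z.arg
      linarith
  · intro i
    fin_cases i
    · have := Real.arcsin_le_pi_div_two (x 2)
      show Real.arcsin (x 2) ≤ 4
      linarith
    · have := Complex.arg_le_pi z
      show z.arg ≤ 4
      linarith
  · rw [hzn] at hc hs
    ext i
    fin_cases i
    · simpa [FF] using hc
    · simpa [FF] using hs
    · simpa [FF] using Real.sin_arcsin h2a h2b

theorem Hfin_proof : Hfin := by
  unfold Hfin
  obtain ⟨K, hK⟩ : ∃ K, LipschitzOnWith K FF (Set.Icc (fun _ => -4) (fun _ => 4)) :=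
    FF_contDiff.contDiffOn.exists_lipschitzOnWith (by norm_num) (convex_Icc _ _) isCompact_Icc
  have h1 := hK.hausdorffMeasure_image_le (d := 2) (by norm_num)
  have h2 : (Measure.hausdorffMeasure 2 : Measure (Fin 2 → ℝ)) = volume := by
    have := hausdorffMeasure_pi_real (ι := Fin 2)
    simpa using this
  rw [h2] at h1
  refine lt_of_le_of_lt (measure_mono sphere_sub) (lt_of_le_of_lt h1 ?_)
  refine ENNReal.mul_lt_top ?_ isCompact_Icc.measure_lt_top
  exact ENNReal.rpow_lt_top_of_nonneg (by norm_num) ENNReal.coe_ne_top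

end

end Pool.Agent.W135.KU
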